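import Pool.Agent.H637.Decode

/-!
# `MP_df498a_lc`, Q2: the threshold `α_M` of a Magidor cardinal is never measurable

`CtblBdd` (file `Pool/Agent/H637/Decode.lean`) says of a set that it is countably infinite and
bounded.  For a cardinal `lam` the well-ordered set `lam.ord.ToType` is `lam` as an initial
ordinal.
-/

set_option autoImplicit false

namespace Pool.Agent.Results.MP_df498a_lc.AlphaMNotMeasurable

open Cardinal Set Pool.Agent.H637

/-- `lam → [lam]^{ℵ₀-bd}_α`: for every colouring `f : [lam]^{ℵ₀-bd} → α` there is `A ⊆ lam` with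
`|A| = lam` such that the set of the values of `f` on `[A]^{ℵ₀-bd}` is not `α`. -/
def Arrow (lam : Cardinal.{0}) (α : Ordinal.{0}) : Prop :=
  ∀ f : {x : Set lam.ord.ToType // CtblBdd x} → α.ToType,
    ∃ A : Set lam.ord.ToType, #A = lam ∧
      {γ | ∃ x : {x : Set lam.ord.ToType // CtblBdd x}, x.1 ⊆ A ∧ f x = γ} ≠ Set.univ

/-- `lam` is a Magidor cardinal. -/
def IsMagidor (lam : Cardinal.{0}) : Prop := ℵ₀ ≤ lam ∧ Arrow lam lam.ord

/-- `α_M (lam)`: the least `α ≥ 1` with `lam → [lam]^{ℵ₀-bd}_α`.  (There is no function from a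
nonempty set to `0`, so the relation holds vacuously for `α = 0`.) -/
noncomputable def alphaM (lam : Cardinal.{0}) : Ordinal.{0} := sInf {α | 0 < α ∧ Arrow lam α}

/-- `κ` is a measurable cardinal: it is uncountable, and there is a `κ`-complete nonprincipal
ultrafilter on `κ`. -/
def IsMeasurableCardinal (κ : Cardinal.{0}) : Prop :=
  ℵ₀ < κ ∧ ∃ U : Ultrafilter κ.ord.ToType, (∀ a, {a} ∉ U) ∧
    ∀ S : Set (Set κ.ord.ToType), #S < κ → (∀ s ∈ S, s ∈ U) → ⋂₀ S ∈ U

/-- measurable cardinals are strong limit cardinals -/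
theorem IsMeasurableCardinal.isStrongLimit {κ : Cardinal.{0}} (h : IsMeasurableCardinal κ) :
    κ.IsStrongLimit := by
  obtain ⟨hκ, U, hU, hcomp⟩ := h
  refine ⟨(Cardinal.aleph0_pos.trans hκ).ne', fun θ hθ => ?_⟩
  by_contra hcon
  rw [not_lt] at hcon
  -- a one-to-one function from `κ` to the functions from `θ` to `2`
  obtain ⟨F⟩ : Nonempty (κ.ord.ToType ↪ (θ.ord.ToType → Prop)) := by
    rw [← Cardinal.le_def, Cardinal.mk_toType, Cardinal.card_ord]
    simpa using hcon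
  have h1 : ∀ i : θ.ord.ToType, ∃ b : Prop, {a | F a i = b} ∈ U := by
    intro i
    rcases U.mem_or_compl_mem {a | F a i = True} with h | h
    · exact ⟨True, h⟩
    · refine ⟨False, Filter.mem_of_superset h ?_⟩
      intro a ha
      simp only [mem_compl_iff, mem_ofPred_eq, eq_iff_iff, iff_true, iff_false] at ha ⊢
      exact ha
  choose b hb using h1
  have h2 : ⋂₀ (range fun i => {a | F a i = b i}) ∈ U := by
    refine hcomp _ ?_ ?_
    · refine (Cardinal.mk_range_le).trans_lt ?_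
      rw [Cardinal.mk_toType, Cardinal.card_ord]
      exact hθ
    · rintro _ ⟨i, rfl⟩
      exact hb i
  have h3 : ∀ a ∈ ⋂₀ (range fun i => {a | F a i = b i}), F a = b := by
    intro a ha
    funext i
    exact ha _ ⟨i, rfl⟩
  obtain ⟨a, ha⟩ := U.nonempty_of_mem h2
  refine hU a (Filter.mem_of_superset h2 fun a' ha' => ?_)
  exact F.injective ((h3 a' ha').trans (h3 a ha).symm)

/-- The relation in terms of functions defined on all subsets, with ordinals as values. -/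
theorem arrow_iff {lam : Cardinal.{0}} {α : Ordinal.{0}} (hα : 0 < α) :
    Arrow lam α ↔ ∀ f : Set lam.ord.ToType → Ordinal.{0}, ∃ A : Set lam.ord.ToType, #A = lam ∧
      ∃ γ < α, ∀ x ⊆ A, CtblBdd x → f x ≠ γ := by
  classical
  constructor
  · intro h f
    obtain ⟨A, hA, hne⟩ := h fun x =>
      if hx : f x.1 < α then Ordinal.ToType.mk ⟨f x.1, hx⟩ else Ordinal.ToType.mk ⟨0, hα⟩
    obtain ⟨γ, hγ⟩ := (Set.ne_univ_iff_exists_notMem _).1 hne
    refine ⟨A, hA, γ.toOrd.1, γ.toOrd.2, fun x hx hxc hfx => hγ ⟨⟨x, hxc⟩, hx, ?_⟩⟩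
    have h1 : f x < α := hfx ▸ γ.toOrd.2
    simp only [dif_pos h1]
    have h2 : (⟨f x, h1⟩ : Iio α) = γ.toOrd := Subtype.ext hfx
    rw [h2]
    exact OrderIso.apply_symm_apply _ γ
  · intro h f
    obtain ⟨A, hA, γ, hγ, hne⟩ := h fun x => if hx : CtblBdd x then (f ⟨x, hx⟩).toOrd.1 else 0
    refine ⟨A, hA, (Set.ne_univ_iff_exists_notMem _).2 ⟨Ordinal.ToType.mk ⟨γ, hγ⟩, ?_⟩⟩
    rintro ⟨x, hx, hfx⟩
    refine hne x.1 hx x.2 ?_
    simp only [dif_pos x.2]
    rw [hfx]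
    exact congrArg Subtype.val (OrderIso.symm_apply_apply _ _)

/-- Colourings with all values on every set of full size. -/
theorem exists_good {lam : Cardinal.{0}} {α : Ordinal.{0}}
    (hmin : ∀ β : Ordinal.{0}, 0 < β → β < α → ¬ Arrow lam β) :
    ∃ c : Ordinal.{0} → Set lam.ord.ToType → Ordinal.{0}, (∀ β x, c β x ≤ β) ∧
      ∀ β, 0 < β → β < α → ∀ A : Set lam.ord.ToType, #A = lam → ∀ γ < β,
        ∃ x ⊆ A, CtblBdd x ∧ c β x = γ := by
  classical
  have hc : ∀ β : Ordinal.{0}, ∃ f : Set lam.ord.ToType → Ordinal.{0}, (∀ x, f x ≤ β) ∧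
      (0 < β → β < α → ∀ A : Set lam.ord.ToType, #A = lam → ∀ γ < β,
        ∃ x ⊆ A, CtblBdd x ∧ f x = γ) := by
    intro β
    by_cases hβ : 0 < β ∧ β < α
    · have h1 := hmin β hβ.1 hβ.2
      rw [arrow_iff hβ.1] at h1
      push Not at h1
      obtain ⟨f, hf⟩ := h1
      refine ⟨fun x => if f x < β then f x else 0, fun x => ?_, fun _ _ A hA γ hγ => ?_⟩
      · by_cases hx : f x < β
        · simp only [if_pos hx]; exact hx.le
        · simp only [if_neg hx]; exact bot_le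
      · obtain ⟨x, hx, hxc, hfx⟩ := hf A hA γ hγ
        refine ⟨x, hx, hxc, ?_⟩
        simp only [hfx, if_pos hγ]
    · exact ⟨fun _ => 0, fun _ => bot_le, fun h1 h2 => absurd ⟨h1, h2⟩ hβ⟩
  choose c hcle hc using hc
  exact ⟨c, hcle, hc⟩

/-- The main point. -/
theorem not_strongLimit {lam κ : Cardinal.{0}} (hκ : κ.IsStrongLimit)
    (h : Arrow lam κ.ord) (hmin : ∀ β : Ordinal.{0}, 0 < β → β < κ.ord → ¬ Arrow lam β) :
    False := by
  classical
  have hκ0 : ℵ₀ ≤ κ := hκ.aleph0_le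
  have hκpos : 0 < κ.ord := Cardinal.ord_pos.2 (Cardinal.aleph0_pos.trans_le hκ0)
  obtain ⟨c, hcle, hc⟩ := exists_good hmin
  -- `lam` is uncountable
  have h1κ : (1 : Ordinal.{0}) < κ.ord :=
    Ordinal.one_lt_omega0.trans_le (by rw [← Cardinal.ord_aleph0]; exact Cardinal.ord_le_ord.2 hκ0)
  have hlam : ℵ₀ < lam := by
    obtain ⟨x, _, ⟨hxi, _, b, hb⟩, _⟩ := hc 1 zero_lt_one h1κ Set.univ
      (by rw [Cardinal.mk_univ, Cardinal.mk_toType, Cardinal.card_ord]) 0 zero_lt_one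
    have : Infinite x := hxi.to_subtype
    calc ℵ₀ ≤ #x := Cardinal.aleph0_le_mk x
      _ ≤ #(Iio b) := Cardinal.mk_le_mk_of_subset hb
      _ < lam := mk_Iio_lt_ord b
  obtain ⟨dec, hdec⟩ := exists_dec hlam
  rw [arrow_iff hκpos] at h
  -- each colouring with values in `κ` is bounded on some set of full size
  have hbdd : ∀ d : Set lam.ord.ToType → Ordinal.{0}, ∃ A : Set lam.ord.ToType, #A = lam ∧
      ∃ ρ < κ.ord, ∀ x ⊆ A, CtblBdd x → d x < κ.ord → d x ≤ ρ := by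
    intro d
    by_contra hcon
    push Not at hcon
    obtain ⟨A, hA, γ, hγ, hne⟩ := h fun u => c (d (dec u).1) (dec u).2
    obtain ⟨x, hxA, hx, hdx, hlt⟩ := hcon A hA γ hγ
    obtain ⟨y, hyA, hy, hcy⟩ := hc (d x) (bot_le.trans_lt hlt) hdx A hA γ hlt
    obtain ⟨u, huA, hu, hdu⟩ := hdec A hA x y hxA hyA hx hy
    refine hne u huA hu ?_
    simp only [hdu]
    exact hcy
  -- the least difference
  obtain ⟨A, hA, ρ, hρ, hD⟩ := hbdd fun u => sInf {θ | c θ (dec u).1 ≠ c θ (dec u).2}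
  have hdet : ∀ x y, x ⊆ A → y ⊆ A → CtblBdd x → CtblBdd y → (∀ θ ≤ ρ, c θ x = c θ y) →
      ∀ θ < κ.ord, c θ x = c θ y := by
    intro x y hxA hyA hx hy hxy θ hθ
    by_contra hne
    obtain ⟨u, huA, hu, hdu⟩ := hdec A hA x y hxA hyA hx hy
    have h1 := hD u huA hu
    simp only [hdu] at h1
    have hmem : θ ∈ {θ | c θ x ≠ c θ y} := hne
    have h2 : sInf {θ | c θ x ≠ c θ y} ≤ θ := csInf_le' hmem
    exact csInf_mem ⟨θ, hmem⟩ (hxy _ (h1 (h2.trans_lt hθ)))
  -- count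
  let ν : Cardinal.{0} := #((ρ + 1).ToType → (ρ + 1).ToType)
  have hν : ν < κ := by
    have h1 : (ρ + 1).card < κ := by
      rw [← Cardinal.lt_ord]
      exact (Cardinal.isSuccLimit_ord hκ0).add_one_lt hρ
    have h2 : ν = (ρ + 1).card ^ (ρ + 1).card := by
      simp only [ν, Cardinal.mk_pi, Cardinal.prod_const, Cardinal.mk_toType, Cardinal.lift_id]
    rw [h2]
    calc (ρ + 1).card ^ (ρ + 1).card ≤ ((2 : Cardinal.{0}) ^ (ρ + 1).card) ^ (ρ + 1).card :=
          Cardinal.power_le_power_right (Cardinal.cantor _).le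
      _ = 2 ^ ((ρ + 1).card * (ρ + 1).card) := by rw [Cardinal.power_mul]
      _ < κ := hκ.isStrongPrelimit (Cardinal.mul_lt_of_lt hκ0 h1 h1)
  have hν1 : Order.succ ν < κ := hκ.isSuccLimit.succ_lt hν
  let θ : Ordinal.{0} := (Order.succ ν).ord
  have hθ : θ < κ.ord := Cardinal.ord_lt_ord.2 hν1
  have hθ0 : 0 < θ := Cardinal.ord_pos.2 (bot_le.trans_lt (Order.lt_succ ν))
  choose x hxA hx hcx using fun γ : θ.ToType => hc θ hθ0 hθ A hA γ.toOrd.1 γ.toOrd.2
  have hinj : Function.Injective fun γ : θ.ToType => fun i : (ρ + 1).ToType =>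
      (Ordinal.ToType.mk ⟨c i.toOrd.1 (x γ), (hcle _ _).trans_lt i.toOrd.2⟩ : (ρ + 1).ToType) := by
    intro γ γ' hγγ
    have h1 : ∀ η ≤ ρ, c η (x γ) = c η (x γ') := by
      intro η hη
      have hη' : η < ρ + 1 := Order.lt_add_one_iff.2 hη
      have h2 := congrFun hγγ (Ordinal.ToType.mk ⟨η, hη'⟩)
      have h3 := congrArg Subtype.val (Ordinal.ToType.mk.injective h2)
      have h4 : (Ordinal.ToType.mk ⟨η, hη'⟩ : (ρ + 1).ToType).toOrd = ⟨η, hη'⟩ :=
        OrderIso.symm_apply_apply _ _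
      simp only [h4] at h3
      exact h3
    have h2 := hdet (x γ) (x γ') (hxA _) (hxA _) (hx _) (hx _) h1 θ hθ
    rw [hcx, hcx] at h2
    exact Ordinal.ToType.mk.symm.injective (Subtype.ext h2)
  have hle : Order.succ ν ≤ ν := by
    have := Cardinal.mk_le_of_injective hinj
    rwa [Cardinal.mk_toType, Cardinal.card_ord] at this
  exact absurd (Order.lt_succ ν) (not_lt.2 hle)

/-- `MP_df498a_lc`, Q2, negated form: for no Magidor cardinal is `α_M` a measurable cardinal.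
Indeed it is never a strong limit cardinal. -/
theorem result (lam : Cardinal.{0}) (hlam : IsMagidor lam) :
    (∀ κ : Cardinal.{0}, IsMeasurableCardinal κ → alphaM lam ≠ κ.ord) ∧
      ∀ κ : Cardinal.{0}, κ.IsStrongLimit → alphaM lam ≠ κ.ord := by
  have hne : {α | 0 < α ∧ Arrow lam α}.Nonempty :=
    ⟨lam.ord, Cardinal.ord_pos.2 (Cardinal.aleph0_pos.trans_le hlam.1), hlam.2⟩
  have hmem : alphaM lam ∈ {α | 0 < α ∧ Arrow lam α} := csInf_mem hne
  have hmin : ∀ β : Ordinal.{0}, 0 < β → β < alphaM lam → ¬ Arrow lam β :=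
    fun β hβ hlt hA => notMem_of_lt_csInf' hlt ⟨hβ, hA⟩
  have key : ∀ κ : Cardinal.{0}, κ.IsStrongLimit → alphaM lam ≠ κ.ord := by
    intro κ hκ hα
    rw [hα] at hmem hmin
    exact not_strongLimit hκ hmem.2 hmin
  exact ⟨fun κ hκ => key κ hκ.isStrongLimit, key⟩

end Pool.Agent.Results.MP_df498a_lc.AlphaMNotMeasurable
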